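import Mathlib
import Pool.Agent.Helper30.CIR.Goals
import Pool.Agent.Helper57.RZ.T1

/-! # Project CIR, packet JCD: the derivative depends continuously on parameters -/

set_option autoImplicit false

open Set Filter Topology

open scoped ContDiff

namespace Pool.Agent.Helper17.CIR

open Pool.Agent.Helper56.RZ

theorem gJCD : Pool.Agent.Helper30.CIR.StmtJCD := by
  intro T _ _ K M U B hU hPi hB
  rintro ⟨p0, x0⟩ hx
  have h0 : ContDiffWithinAt ℝ (0 + 1) (fun p : T × E K => B p.1 p.2) (U ×ˢ M) (p0, x0) := by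
    rw [zero_add]
    exact hB _ hx
  rw [contDiffWithinAt_succ_iff_hasFDerivWithinAt (by simp)] at h0
  obtain ⟨u, hu, -, f', hf', hc⟩ := h0
  rw [insert_eq_of_mem hx] at hu
  have hxu : (p0, x0) ∈ u := mem_of_mem_nhdsWithin hx hu
  obtain ⟨o, ho, hxo, hou⟩ := mem_nhdsWithin.1 hu
  have hc' : ContinuousWithinAt f' (U ×ˢ M) (p0, x0) := by
    have h3 : ContinuousWithinAt f' u (p0, x0) := hc.continuousWithinAt
    exact h3.mono_of_mem_nhdsWithin hu
  have hPi' : ContinuousWithinAt (fun p : T × E K => Pi M p.2) (U ×ˢ M) (p0, x0) :=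
    ContinuousWithinAt.comp (g := Pi M) (f := (Prod.snd : T × E K → E K)) (s := U ×ˢ M) (t := M)
      (x := (p0, x0)) (hPi x0 hx.2) continuousWithinAt_snd (fun p hp => hp.2)
  have h4 : ContinuousWithinAt (fun p : T × E K =>
      ((f' p).comp (ContinuousLinearMap.inr ℝ T (E K)) : End K) * Pi M p.2) (U ×ˢ M) (p0, x0) := by
    refine ContinuousWithinAt.mul ?_ hPi'
    exact ((ContinuousLinearMap.compL ℝ (E K) (T × E K) (E K)).flip
      (ContinuousLinearMap.inr ℝ T (E K))).continuous.continuousAt.comp_continuousWithinAt hc'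
  have key : ∀ p : T × E K, p ∈ o → p ∈ U ×ˢ M →
      ((f' p).comp (ContinuousLinearMap.inr ℝ T (E K)) : End K) * Pi M p.2 =
        der M (B p.1) p.2 := by
    rintro ⟨p, x⟩ hpo hp
    refine (Pool.Agent.Helper57.RZ.t2 K M (B p) (B p) x hp.2).1 _ ?_
    have h5 : HasFDerivWithinAt (fun p : T × E K => B p.1 p.2) (f' (p, x)) (U ×ˢ M) (p, x) := by
      refine (hf' (p, x) (hou ⟨hpo, hp⟩)).mono_of_mem_nhdsWithin ?_
      exact mem_nhdsWithin.2 ⟨o, ho, hpo, hou⟩
    have h6 : HasFDerivWithinAt (fun y : E K => ((p, y) : T × E K))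
        (ContinuousLinearMap.inr ℝ T (E K)) M x := (hasFDerivAt_prodMk_right p x).hasFDerivWithinAt
    exact HasFDerivWithinAt.comp (t := U ×ˢ M) x h5 h6 (fun y hy => ⟨hp.1, hy⟩)
  refine h4.congr_of_eventuallyEq ?_ ?_
  · filter_upwards [mem_nhdsWithin_of_mem_nhds (ho.mem_nhds hxo), self_mem_nhdsWithin] with p hpo hp
    exact (key p hpo hp).symm
  · exact (key _ hxo hx).symm

end Pool.Agent.Helper17.CIR
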